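import Pool.Agent.W23.SG.All
import Pool.Agent.Y877.SxI

/-!
# Shifts of thin sets of primes: all but a power of the logarithm of the shifts

The theorem `sparse_sets` of the starting file `Pool/Agent/W23/SG/All` for the primes `φ q`, `q ∈ Q`, where `Q` is a set of
at least `n / log ^ A n` indices and `φ q ≤ n log ^ B n`.
-/

set_option autoImplicit false

open Finset Filter

namespace Pool.Agent.R884.SP

/-- `b ≠ 0` and `|b| = m s`, where all prime factors of `m` are `< x ^ ε` and `s` has at most two prime factors, counted with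
multiplicity, all of them `> x ^ (1 / 7)`. So `b` has no prime factor in `[x ^ ε, x ^ (1 / 7)]` and at most two larger ones. -/
def Rep (x ε : ℝ) (b : ℤ) : Prop :=
  b ≠ 0 ∧ ∃ m s : ℕ, b.natAbs = m * s ∧ (∀ l : ℕ, l.Prime → l ∣ m → (l : ℝ) < x ^ ε) ∧
    s.primeFactorsList.length ≤ 2 ∧ ∀ q ∈ s.primeFactors, x ^ (1 / 7 : ℝ) < q

open Classical in
theorem core (ε : ℝ) (hε : 0 < ε) : ∃ c C : ℝ, 0 < c ∧ 0 ≤ C ∧ ∀ A B : ℕ, ∃ n₀ : ℕ, ∀ n : ℕ, n₀ ≤ n →
    ∀ Q : Finset ℕ, (n : ℝ) ≤ Q.card * Real.log n ^ A → ∀ φ : ℕ → ℕ, Set.InjOn φ (Q : Set ℕ) →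
      (∀ q ∈ Q, (φ q).Prime ∧ (φ q : ℝ) ≤ n * Real.log n ^ B) →
      (((Icc (-(n : ℤ)) n).filter (fun h : ℤ =>
        ((Q.filter (fun q => Rep n ε ((φ q : ℤ) + h))).card : ℝ) < c * Q.card)).card : ℝ) ≤
        C * (n * Real.log n ^ B / (Q.card * Real.log n)) := by
  obtain ⟨c, C, η, hc, hη, H⟩ := Pool.Agent.W23.SG.sparse_sets (ε / 2) (by positivity)
  refine ⟨c, 2 * max C 0, hc, by positivity, fun A B => ?_⟩
  set η' := min η 1 with hη'
  have hη'0 : 0 < η' := lt_min hη one_pos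
  have hη'1 : η' ≤ 1 := min_le_right _ _
  -- eventually the logarithm is small
  have hlim : ∀ᶠ x : ℝ in atTop, 2 * Real.log x ^ (A + B) ≤ x ^ η' := by
    have h1 := (isLittleO_log_rpow_rpow_atTop ((A + B : ℕ) : ℝ) hη'0).bound
      (show (0 : ℝ) < 1 / 2 by norm_num)
    filter_upwards [h1, eventually_ge_atTop (1 : ℝ)] with x hx hx1
    have h2 : 0 ≤ Real.log x := Real.log_nonneg hx1
    rw [Real.norm_of_nonneg (by positivity), Real.norm_of_nonneg (by positivity),
      Real.rpow_natCast] at hx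
    linarith
  have hlim2 : ∀ᶠ x : ℝ in atTop, 2 * Real.log x ^ B ≤ x := by
    have h1 := (isLittleO_log_rpow_rpow_atTop ((B : ℕ) : ℝ) (one_pos)).bound
      (show (0 : ℝ) < 1 / 2 by norm_num)
    filter_upwards [h1, eventually_ge_atTop (1 : ℝ)] with x hx hx1
    have h2 : 0 ≤ Real.log x := Real.log_nonneg hx1
    rw [Real.norm_of_nonneg (by positivity), Real.norm_of_nonneg (by positivity),
      Real.rpow_natCast, Real.rpow_one] at hx
    linarith
  obtain ⟨n₀, hn₀⟩ := ((tendsto_natCast_atTop_atTop (R := ℝ)).eventually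
    (hlim.and (hlim2.and (eventually_ge_atTop (3 : ℝ))))).exists_forall_of_atTop
  refine ⟨n₀, fun n hn Q hQ φ hφ hφ2 => ?_⟩
  obtain ⟨b1, b2, b3⟩ := hn₀ n hn
  set L := Real.log n with hL
  have hL1 : 1 ≤ L := by
    rw [hL, Real.le_log_iff_exp_le (by linarith)]
    linarith [Real.exp_one_lt_d9]
  have hLB : 1 ≤ L ^ B := one_le_pow₀ hL1
  have hLA : 1 ≤ L ^ A := one_le_pow₀ hL1
  have hn0 : (0 : ℝ) < n := by linarith
  have hQ0 : (0 : ℝ) < Q.card := by
    by_contra h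
    have : (Q.card : ℝ) = 0 := le_antisymm (not_lt.1 h) (Nat.cast_nonneg _)
    rw [this, zero_mul] at hQ
    linarith
  set X := ⌈(n : ℝ) * L ^ B⌉₊ with hX
  have hX1 : (n : ℝ) * L ^ B ≤ X := Nat.le_ceil _
  have hnX : (n : ℝ) ≤ X := by nlinarith
  have hX2 : (X : ℝ) ≤ 2 * (n * L ^ B) := by
    have h1 := Nat.ceil_lt_add_one (show (0 : ℝ) ≤ n * L ^ B by positivity)
    have h2 : (1 : ℝ) ≤ n * L ^ B := by nlinarith
    linarith
  have hX0 : (0 : ℝ) < X := by linarith
  have hXn2 : (X : ℝ) ≤ n ^ (2 : ℝ) := by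
    have : (n : ℝ) ^ (2 : ℝ) = n * n := by
      rw [show (2 : ℝ) = ((2 : ℕ) : ℝ) by norm_num, Real.rpow_natCast]; ring
    rw [this]
    nlinarith
  have hX2' : 2 ≤ X := by
    have : (2 : ℝ) ≤ X := by linarith
    exact_mod_cast this
  -- the set of primes
  have hcard : (Q.image φ).card = Q.card := card_image_of_injOn hφ
  have hsize : (X : ℝ) ^ (1 - η) ≤ ((Q.image φ).card : ℝ) := by
    rw [hcard]
    have h1 : (X : ℝ) ^ (1 - η) ≤ (X : ℝ) ^ (1 - η') :=
      Real.rpow_le_rpow_of_exponent_le (by linarith) (by linarith [min_le_left η 1])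
    have h2 : (X : ℝ) ^ (1 - η') ≤ (2 * (n * L ^ B)) ^ (1 - η') :=
      Real.rpow_le_rpow hX0.le hX2 (by linarith)
    have h3 : (2 * ((n : ℝ) * L ^ B)) ^ (1 - η') = (n : ℝ) ^ (1 - η') * (2 * L ^ B) ^ (1 - η') := by
      rw [← Real.mul_rpow hn0.le (by positivity)]
      congr 1
      ring
    have h4 : (2 * L ^ B) ^ (1 - η') ≤ 2 * L ^ B := by
      calc (2 * L ^ B) ^ (1 - η') ≤ (2 * L ^ B) ^ (1 : ℝ) :=
            Real.rpow_le_rpow_of_exponent_le (by linarith) (by linarith)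
        _ = 2 * L ^ B := Real.rpow_one _
    have h5 : (n : ℝ) ^ (1 - η') * (n : ℝ) ^ η' = n := by
      rw [← Real.rpow_add hn0]
      simp
    have h6 : 0 ≤ (n : ℝ) ^ (1 - η') := Real.rpow_nonneg hn0.le _
    have h7 : (n : ℝ) ^ (1 - η') * (2 * L ^ B) * L ^ A ≤ n := by
      calc (n : ℝ) ^ (1 - η') * (2 * L ^ B) * L ^ A
          = (n : ℝ) ^ (1 - η') * (2 * L ^ (A + B)) := by rw [pow_add]; ring
        _ ≤ (n : ℝ) ^ (1 - η') * (n : ℝ) ^ η' := mul_le_mul_of_nonneg_left b1 h6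
        _ = n := h5
    have h8 : (n : ℝ) ^ (1 - η') * (2 * L ^ B) ≤ Q.card := by
      have h9 : (n : ℝ) ^ (1 - η') * (2 * L ^ B) * L ^ A ≤ Q.card * L ^ A := h7.trans hQ
      exact le_of_mul_le_mul_right h9 (by linarith)
    refine h1.trans (h2.trans ?_)
    rw [h3]
    exact (mul_le_mul_of_nonneg_left h4 h6).trans h8
  have hprime : ∀ p ∈ Q.image φ, p.Prime ∧ p ≤ X := by
    intro p hp
    obtain ⟨q, hq, rfl⟩ := mem_image.1 hp
    refine ⟨(hφ2 q hq).1, ?_⟩
    have := (hφ2 q hq).2.trans hX1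
    exact_mod_cast this
  have main := H X hX2' (Q.image φ) hprime hsize
  -- comparison of the exceptional sets
  have hcmp : ((Icc (-(n : ℤ)) n).filter (fun h : ℤ =>
        ((Q.filter (fun q => Rep n ε ((φ q : ℤ) + h))).card : ℝ) < c * Q.card)).card ≤
      ((Icc (-(2 * X : ℤ)) (2 * X)).filter (fun N : ℤ => (((Q.image φ).filter (fun p : ℕ =>
        (p : ℤ) ≠ N ∧ ∃ m s : ℕ, (N - p).natAbs = m * s ∧
          (∀ l : ℕ, l.Prime → l ∣ m → (l : ℝ) < (X : ℝ) ^ (ε / 2)) ∧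
          s.primeFactorsList.length ≤ 2 ∧
          ∀ q ∈ s.primeFactors, (X : ℝ) ^ (1 / 7 : ℝ) < q)).card : ℝ) <
            c * (Q.image φ).card)).card := by
    apply card_le_card_of_injOn (fun h => -h)
    · intro h hh
      rw [mem_coe, mem_filter, mem_Icc] at hh
      rw [mem_coe, mem_filter, mem_Icc, hcard]
      obtain ⟨⟨h1, h2⟩, h3⟩ := hh
      have hnX' : (n : ℤ) ≤ X := by exact_mod_cast hnX
      refine ⟨⟨by show -(2 * (X : ℤ)) ≤ -h; omega, by show -h ≤ 2 * (X : ℤ); omega⟩, lt_of_le_of_lt ?_ h3⟩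
      have h4 : ((Q.image φ).filter (fun p : ℕ =>
        (p : ℤ) ≠ -h ∧ ∃ m s : ℕ, (-h - p).natAbs = m * s ∧
          (∀ l : ℕ, l.Prime → l ∣ m → (l : ℝ) < (X : ℝ) ^ (ε / 2)) ∧
          s.primeFactorsList.length ≤ 2 ∧
          ∀ q ∈ s.primeFactors, (X : ℝ) ^ (1 / 7 : ℝ) < q)) ⊆
          (Q.filter (fun q => Rep n ε ((φ q : ℤ) + h))).image φ := by
        intro p hp
        rw [mem_filter] at hp
        obtain ⟨hp1, hp2, m, s, hms, hm, hs, hq⟩ := hp
        obtain ⟨q, hqQ, rfl⟩ := mem_image.1 hp1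
        rw [mem_image]
        refine ⟨q, ?_, rfl⟩
        rw [mem_filter]
        refine ⟨hqQ, by intro h0; apply hp2; omega, m, s, ?_, ?_, hs, ?_⟩
        · rw [← hms]
          omega
        · intro l hl hlm
          refine (hm l hl hlm).trans_le ?_
          calc (X : ℝ) ^ (ε / 2) ≤ ((n : ℝ) ^ (2 : ℝ)) ^ (ε / 2) :=
                Real.rpow_le_rpow hX0.le hXn2 (by positivity)
            _ = (n : ℝ) ^ ε := by
                rw [← Real.rpow_mul hn0.le]
                congr 1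
                ring
        · intro r hr
          refine lt_of_le_of_lt ?_ (hq r hr)
          exact Real.rpow_le_rpow hn0.le hnX (by norm_num)
      have h5 := (card_le_card h4).trans card_image_le
      exact_mod_cast h5
    · intro a _ b _ hab
      exact neg_injective hab
  have h1 : (((Icc (-(n : ℤ)) n).filter (fun h : ℤ =>
        ((Q.filter (fun q => Rep n ε ((φ q : ℤ) + h))).card : ℝ) < c * Q.card)).card : ℝ) ≤
      C * (X / ((Q.image φ).card * Real.log X)) := (by exact_mod_cast hcmp : _ ≤ _).trans main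
  refine h1.trans ?_
  rw [hcard]
  have hlogX : L ≤ Real.log X := Real.log_le_log hn0 hnX
  have h2 : (X : ℝ) / (Q.card * Real.log X) ≤ 2 * (n * L ^ B) / (Q.card * L) := by
    apply div_le_div₀ (by positivity) hX2 (by positivity)
    exact mul_le_mul_of_nonneg_left hlogX hQ0.le
  have h3 : 0 ≤ (X : ℝ) / (Q.card * Real.log X) := by
    have : 0 ≤ Real.log X := by linarith
    positivity
  calc C * (X / (Q.card * Real.log X)) ≤ max C 0 * (X / (Q.card * Real.log X)) :=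
        mul_le_mul_of_nonneg_right (le_max_left _ _) h3
    _ ≤ max C 0 * (2 * (n * L ^ B) / (Q.card * L)) :=
        mul_le_mul_of_nonneg_left h2 (le_max_right _ _)
    _ = 2 * max C 0 * (n * L ^ B / (Q.card * L)) := by ring

end Pool.Agent.R884.SP
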